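import Mathlib

namespace Pool.Agent.Work.MP_59b97c_co

/-- The `(a, b)`-benzel, as the set of the triples `(i, j, k)`, `i + j + k = 1`, of its cells. -/
def benzel (a b : ℤ) : Set (ℤ × ℤ × ℤ) :=
  {c | c.1 + c.2.1 + c.2.2 = 1 ∧
    -(a - 1) ≤ c.2.1 - c.1 ∧ c.2.1 - c.1 ≤ b - 1 ∧
    -(a - 1) ≤ c.2.2 - c.2.1 ∧ c.2.2 - c.2.1 ≤ b - 1 ∧
    -(a - 1) ≤ c.1 - c.2.2 ∧ c.1 - c.2.2 ≤ b - 1}

/-- A translate of the right stone `{(1,0,0), (0,1,0), (0,0,1)}`. -/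
def IsRightStone (T : Set (ℤ × ℤ × ℤ)) : Prop :=
  ∃ p : ℤ × ℤ × ℤ, p.1 + p.2.1 + p.2.2 = 0 ∧ T = {p + (1, 0, 0), p + (0, 1, 0), p + (0, 0, 1)}

/-- A bone: three consecutive cells in a straight line, in one of the three directions. -/
def IsBone (T : Set (ℤ × ℤ × ℤ)) : Prop :=
  ∃ c v : ℤ × ℤ × ℤ, c.1 + c.2.1 + c.2.2 = 1 ∧
    (v = (1, -1, 0) ∨ v = (0, 1, -1) ∨ v = (-1, 0, 1)) ∧ T = {c - v, c, c + v}

/-- A type 103 tiling exists: the region is a disjoint union of right stones and bones. -/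
def HasType103Tiling (R : Set (ℤ × ℤ × ℤ)) : Prop :=
  ∃ 𝒯 : Set (Set (ℤ × ℤ × ℤ)), (∀ T ∈ 𝒯, IsRightStone T ∨ IsBone T) ∧
    𝒯.PairwiseDisjoint id ∧ ⋃₀ 𝒯 = R

/-- The Conway-Lagarias invariant of the `(a, b)`-benzel. -/
def clInvariant (a b : ℤ) : ℚ :=
  if (a + b) % 3 = 0 then (3 * a ^ 2 - 6 * a * b + 3 * b ^ 2 - a - b) / 2
  else if (a + b) % 3 = 1 then (-a ^ 2 + 4 * a * b - b ^ 2 - a - b + 2) / 2
  else (3 * a ^ 2 - 6 * a * b + 3 * b ^ 2 + a + b - 2) / 2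

end Pool.Agent.Work.MP_59b97c_co
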