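import Pool.Agent.Work.MP_59b97c_co.Defs

-- merged part: Pool.Agent.Work.MP_59b97c_co.Basic
section
namespace Pool.Agent.Work.MP_59b97c_co

lemma HasType103Tiling.union {A B : Set (ℤ × ℤ × ℤ)} (hA : HasType103Tiling A)
    (hB : HasType103Tiling B) (h : Disjoint A B) : HasType103Tiling (A ∪ B) := by
  obtain ⟨𝒜, a1, a2, a3⟩ := hA
  obtain ⟨ℬ, b1, b2, b3⟩ := hB
  refine ⟨𝒜 ∪ ℬ, ?_, ?_, ?_⟩
  · rintro T (hT | hT)
    · exact a1 T hT
    · exact b1 T hT
  · refine a2.union b2 ?_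
    intro S hS T hT _
    refine Disjoint.mono ?_ ?_ h
    · rw [← a3]; exact Set.subset_sUnion_of_mem hS
    · rw [← b3]; exact Set.subset_sUnion_of_mem hT
  · rw [Set.sUnion_union, a3, b3]

lemma tile_bone (S : Set (ℤ × ℤ × ℤ)) (v : ℤ × ℤ × ℤ)
    (hv : v = (1, -1, 0) ∨ v = (0, 1, -1) ∨ v = (-1, 0, 1)) (φ : ℤ × ℤ × ℤ → ℤ)
    (h0 : ∀ c ∈ S, c.1 + c.2.1 + c.2.2 = 1)
    (h1 : ∀ c ∈ S, φ c % 3 ≠ 2 → c + v ∈ S ∧ φ (c + v) % 3 = (φ c + 1) % 3)
    (h2 : ∀ c ∈ S, φ c % 3 ≠ 0 → c - v ∈ S ∧ (φ (c - v) + 1) % 3 = φ c % 3) :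
    HasType103Tiling S := by
  refine ⟨{T | ∃ c ∈ S, φ c % 3 = 1 ∧ T = {c - v, c, c + v}}, ?_, ?_, ?_⟩
  · rintro T ⟨c, hc, -, rfl⟩
    exact Or.inr ⟨c, v, h0 c hc, hv, rfl⟩
  · rintro T ⟨c, hc, hφ, rfl⟩ T' ⟨c', hc', hφ', rfl⟩ hne
    rw [Function.onFun, id, id, Set.disjoint_left]
    intro x hx hx'
    apply hne
    have p1 := (h1 c hc (by omega)).2
    have p2 := (h2 c hc (by omega)).2
    have q1 := (h1 c' hc' (by omega)).2
    have q2 := (h2 c' hc' (by omega)).2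
    have : c = c' := by
      rcases hx with rfl | rfl | rfl <;> rcases hx' with h | h | h
      · exact sub_left_injective h
      · rw [h] at p2; omega
      · rw [h] at p2; omega
      · rw [h] at hφ; omega
      · exact h
      · rw [h] at hφ; omega
      · rw [h] at p1; omega
      · rw [h] at p1; omega
      · exact add_right_cancel h
    rw [this]
  · ext x
    constructor
    · rintro ⟨T, ⟨c, hc, hφ, rfl⟩, hx⟩
      rcases hx with rfl | rfl | rfl
      · exact (h2 c hc (by omega)).1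
      · exact hc
      · exact (h1 c hc (by omega)).1
    · intro hx
      have : φ x % 3 = 0 ∨ φ x % 3 = 1 ∨ φ x % 3 = 2 := by omega
      rcases this with h | h | h
      · obtain ⟨p, q⟩ := h1 x hx (by omega)
        exact ⟨_, ⟨x + v, p, by omega, rfl⟩, by simp⟩
      · exact ⟨_, ⟨x, hx, h, rfl⟩, by simp⟩
      · obtain ⟨p, q⟩ := h2 x hx (by omega)
        exact ⟨_, ⟨x - v, p, by omega, rfl⟩, by simp⟩

/-- Tileability of the region described by a predicate on the three coordinates. -/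
def Til (P : ℤ → ℤ → ℤ → Prop) : Prop := HasType103Tiling {c | P c.1 c.2.1 c.2.2}

lemma Til.congr {P Q : ℤ → ℤ → ℤ → Prop} (h : Til Q) (e : ∀ i j k, P i j k ↔ Q i j k) : Til P := by
  have : P = Q := by
    funext i j k
    exact propext (e i j k)
  rw [this]
  exact h

lemma Til.split {P : ℤ → ℤ → ℤ → Prop} (Q : ℤ → ℤ → ℤ → Prop)
    (h1 : Til fun i j k => P i j k ∧ Q i j k) (h2 : Til fun i j k => P i j k ∧ ¬ Q i j k) :
    Til P := by
  have := HasType103Tiling.union h1 h2 (by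
    rw [Set.disjoint_left]
    intro c a b
    exact b.2 a.2)
  unfold Til
  convert this using 1
  ext c
  simp only [Set.mem_union, Set.mem_ofPred_eq]
  tauto

lemma Til.bone1 {P : ℤ → ℤ → ℤ → Prop} (φ : ℤ → ℤ → ℤ → ℤ)
    (h0 : ∀ i j k, P i j k → i + j + k = 1)
    (h1 : ∀ i j k, P i j k → (φ i j k % 3 = 0 ∨ φ i j k % 3 = 1) →
      P (i + 1) (j - 1) k ∧ φ (i + 1) (j - 1) k % 3 = (φ i j k + 1) % 3)
    (h2 : ∀ i j k, P i j k → (φ i j k % 3 = 1 ∨ φ i j k % 3 = 2) →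
      P (i - 1) (j + 1) k ∧ (φ (i - 1) (j + 1) k + 1) % 3 = φ i j k % 3) : Til P := by
  apply tile_bone _ (1, -1, 0) (Or.inl rfl) (fun c => φ c.1 c.2.1 c.2.2)
  · rintro ⟨i, j, k⟩ h; exact h0 i j k h
  · rintro ⟨i, j, k⟩ h h'
    simpa [sub_eq_add_neg] using h1 i j k h (by simp only at h'; omega)
  · rintro ⟨i, j, k⟩ h h'
    simpa using h2 i j k h (by simp only at h'; omega)

lemma Til.bone2 {P : ℤ → ℤ → ℤ → Prop} (φ : ℤ → ℤ → ℤ → ℤ)
    (h0 : ∀ i j k, P i j k → i + j + k = 1)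
    (h1 : ∀ i j k, P i j k → (φ i j k % 3 = 0 ∨ φ i j k % 3 = 1) →
      P i (j + 1) (k - 1) ∧ φ i (j + 1) (k - 1) % 3 = (φ i j k + 1) % 3)
    (h2 : ∀ i j k, P i j k → (φ i j k % 3 = 1 ∨ φ i j k % 3 = 2) →
      P i (j - 1) (k + 1) ∧ (φ i (j - 1) (k + 1) + 1) % 3 = φ i j k % 3) : Til P := by
  apply tile_bone _ (0, 1, -1) (Or.inr (Or.inl rfl)) (fun c => φ c.1 c.2.1 c.2.2)
  · rintro ⟨i, j, k⟩ h; exact h0 i j k h
  · rintro ⟨i, j, k⟩ h h'
    simpa [sub_eq_add_neg] using h1 i j k h (by simp only at h'; omega)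
  · rintro ⟨i, j, k⟩ h h'
    simpa using h2 i j k h (by simp only at h'; omega)

lemma Til.bone3 {P : ℤ → ℤ → ℤ → Prop} (φ : ℤ → ℤ → ℤ → ℤ)
    (h0 : ∀ i j k, P i j k → i + j + k = 1)
    (h1 : ∀ i j k, P i j k → (φ i j k % 3 = 0 ∨ φ i j k % 3 = 1) →
      P (i - 1) j (k + 1) ∧ φ (i - 1) j (k + 1) % 3 = (φ i j k + 1) % 3)
    (h2 : ∀ i j k, P i j k → (φ i j k % 3 = 1 ∨ φ i j k % 3 = 2) →
      P (i + 1) j (k - 1) ∧ (φ (i + 1) j (k - 1) + 1) % 3 = φ i j k % 3) : Til P := by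
  apply tile_bone _ (-1, 0, 1) (Or.inr (Or.inr rfl)) (fun c => φ c.1 c.2.1 c.2.2)
  · rintro ⟨i, j, k⟩ h; exact h0 i j k h
  · rintro ⟨i, j, k⟩ h h'
    simpa [sub_eq_add_neg] using h1 i j k h (by simp only at h'; omega)
  · rintro ⟨i, j, k⟩ h h'
    simpa using h2 i j k h (by simp only at h'; omega)

lemma Til.stone {P : ℤ → ℤ → ℤ → Prop} (κ : ℤ)
    (h0 : ∀ i j k, P i j k → i + j + k = 1)
    (h2 : ∀ i j k, P i j k → (j - i - κ) % 3 = 2 → P (i - 1) (j + 1) k)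
    (h1 : ∀ i j k, P i j k → (j - i - κ) % 3 = 1 → P i (j - 1) (k + 1))
    (h3 : ∀ i j k, P i j k → (j - i - κ) % 3 = 0 → P (i + 1) j (k - 1)) : Til P := by
  refine ⟨{T | ∃ i j k : ℤ, P i j (k + 1) ∧ (j - i - κ) % 3 = 0 ∧
    T = {(i, j, k) + (1, 0, 0), (i, j, k) + (0, 1, 0), (i, j, k) + (0, 0, 1)}}, ?_, ?_, ?_⟩
  · rintro T ⟨i, j, k, hP, -, rfl⟩
    refine Or.inl ⟨(i, j, k), ?_, rfl⟩
    have := h0 _ _ _ hP
    simp only
    omega
  · rintro T ⟨i, j, k, hP, hκ, rfl⟩ T' ⟨i', j', k', hP', hκ', rfl⟩ hne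
    rw [Function.onFun, id, id, Set.disjoint_left]
    intro x hx hx'
    apply hne
    have : i = i' ∧ j = j' ∧ k = k' := by
      rcases hx with rfl | rfl | rfl <;> rcases hx' with h | h | h <;>
        simp only [Set.mem_singleton_iff, Prod.mk_add_mk, Prod.mk.injEq] at h <;> omega
    obtain ⟨rfl, rfl, rfl⟩ := this
    rfl
  · ext ⟨x, y, z⟩
    constructor
    · rintro ⟨T, ⟨i, j, k, hP, hκ, rfl⟩, hx⟩
      have a3 := h3 _ _ _ hP hκ
      have a2 := h2 _ _ _ a3 (by omega)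
      rcases hx with h | h | h <;>
        simp only [Set.mem_singleton_iff, Prod.mk_add_mk, Prod.mk.injEq] at h <;>
        obtain ⟨rfl, rfl, rfl⟩ := h
      · simpa using a3
      · simpa using a2
      · simpa using hP
    · intro hx
      have hx' : P x y z := hx
      have : (y - x - κ) % 3 = 0 ∨ (y - x - κ) % 3 = 1 ∨ (y - x - κ) % 3 = 2 := by omega
      rcases this with h | h | h
      · exact ⟨_, ⟨x, y, z - 1, by simpa using hx', h, rfl⟩, by simp⟩
      · exact ⟨_, ⟨x, y - 1, z, h1 _ _ _ hx' h, by omega, rfl⟩, by simp⟩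
      · have a2 := h2 _ _ _ hx' h
        have a1 := h1 _ _ _ a2 (by omega)
        exact ⟨_, ⟨x - 1, y, z, by simpa using a1, by omega, rfl⟩, by simp⟩

/-- The reflection exchanging the first and the last coordinate preserves tileability. -/
lemma Til.reflect {P : ℤ → ℤ → ℤ → Prop} (h : Til P) : Til fun i j k => P k j i := by
  obtain ⟨𝒯, h1, h2, h3⟩ := h
  let σ : ℤ × ℤ × ℤ → ℤ × ℤ × ℤ := fun c => (c.2.2, c.2.1, c.1)
  have hσ : ∀ c, σ (σ c) = c := fun c => rfl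
  refine ⟨(fun T => σ ⁻¹' T) '' 𝒯, ?_, ?_, ?_⟩
  · rintro _ ⟨T, hT, rfl⟩
    rcases h1 T hT with ⟨⟨i, j, k⟩, hp, rfl⟩ | ⟨⟨i, j, k⟩, v, hc, hv, rfl⟩
    · refine Or.inl ⟨(k, j, i), by simp only at hp ⊢; omega, ?_⟩
      ext ⟨x, y, z⟩
      simp only [σ, Set.mem_preimage, Set.mem_insert_iff, Set.mem_singleton_iff, Prod.mk_add_mk,
        Prod.mk.injEq]
      omega
    · refine Or.inr ?_
      rcases hv with rfl | rfl | rfl
      · refine ⟨(k, j, i), (0, 1, -1), by simp only at hc ⊢; omega, by simp, ?_⟩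
        ext ⟨x, y, z⟩
        simp only [σ, Set.mem_preimage, Set.mem_insert_iff, Set.mem_singleton_iff, Prod.mk_add_mk,
          Prod.mk_sub_mk, Prod.mk.injEq]
        omega
      · refine ⟨(k, j, i), (1, -1, 0), by simp only at hc ⊢; omega, by simp, ?_⟩
        ext ⟨x, y, z⟩
        simp only [σ, Set.mem_preimage, Set.mem_insert_iff, Set.mem_singleton_iff, Prod.mk_add_mk,
          Prod.mk_sub_mk, Prod.mk.injEq]
        omega
      · refine ⟨(k, j, i), (-1, 0, 1), by simp only at hc ⊢; omega, by simp, ?_⟩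
        ext ⟨x, y, z⟩
        simp only [σ, Set.mem_preimage, Set.mem_insert_iff, Set.mem_singleton_iff, Prod.mk_add_mk,
          Prod.mk_sub_mk, Prod.mk.injEq]
        omega
  · rintro _ ⟨S, hS, rfl⟩ _ ⟨T, hT, rfl⟩ hne
    have : S ≠ T := fun e => hne (by rw [e])
    exact (h2 hS hT this).preimage σ
  · ext c
    have : c ∈ ⋃₀ ((fun T => σ ⁻¹' T) '' 𝒯) ↔ σ c ∈ ⋃₀ 𝒯 := by simp
    rw [this, h3]
    rfl

end Pool.Agent.Work.MP_59b97c_co
end

-- merged part: Pool.Agent.Work.MP_59b97c_co.Cases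
section
namespace Pool.Agent.Work.MP_59b97c_co

/-- The benzel as a predicate. -/
def Bz (a b : ℤ) (i j k : ℤ) : Prop :=
  i + j + k = 1 ∧ -(a - 1) ≤ j - i ∧ j - i ≤ b - 1 ∧ -(a - 1) ≤ k - j ∧ k - j ≤ b - 1 ∧
    -(a - 1) ≤ i - k ∧ i - k ≤ b - 1

/-- The benzel with its three flat corner triangles removed (case `a + b ≡ 0`). -/
def Rh (d m : ℤ) (i j k : ℤ) : Prop :=
  i + j + k = 1 ∧ 1 - (d + 3 * m) ≤ j - i ∧ 1 - (d + 3 * m) ≤ k - j ∧ 1 - (d + 3 * m) ≤ i - k ∧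
    i ≤ d + m ∧ j ≤ d + m ∧ k ≤ d + m

lemma case1 (a b : ℤ) (h : (a + b) % 3 = 1) : Til (Bz a b) := by
  apply Til.stone (2 - a) <;> intro i j k <;> unfold Bz <;> omega

lemma case2 (d m : ℤ) (hd : 0 ≤ d) (hm : 0 ≤ m) : Til (Bz (d + 3 * m + 1) (2 * d + 3 * m + 1)) := by
  apply Til.split (fun i _ _ => i < 1 - d - m)
  · apply Til.bone2 (fun i _ k => i - k + (d + 3 * m)) <;> intro i j k <;> unfold Bz <;> omega
  apply Til.split (fun _ j _ => j < 1 - d - m)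
  · apply Til.bone3 (fun i j _ => j - i + (d + 3 * m)) <;> intro i j k <;> unfold Bz <;> omega
  apply Til.split (fun _ _ k => k < 1 - d - m)
  · apply Til.bone1 (fun _ j k => k - j + (d + 3 * m)) <;> intro i j k <;> unfold Bz <;> omega
  apply Til.congr (Q := fun i j k => i + j + k = 1 ∧ -(d + 3 * m) ≤ j - i ∧ -(d + 3 * m) ≤ k - j ∧
    -(d + 3 * m) ≤ i - k ∧ 1 - d - m ≤ i ∧ 1 - d - m ≤ j ∧ 1 - d - m ≤ k)
  swap
  · intro i j k; unfold Bz; omega
  apply Til.split (fun i j k => -d ≤ j - i ∧ -d + 3 * m ≤ k - j)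
  · apply Til.stone (1 - d) <;> intro i j k <;> omega
  apply Til.split (fun _ j _ => j ≤ -m)
  · apply Til.bone3 (fun i j _ => j - i + (d + 3 * m)) <;> intro i j k <;> omega
  apply Til.split (fun _ j k => k ≤ -m ∧ k - j < -d)
  · apply Til.bone1 (fun _ j k => k - j + (d + 3 * m)) <;> intro i j k <;> omega
  apply Til.split (fun _ j _ => j ≤ d - m)
  · apply Til.bone3 (fun _ j k => k - j + d) <;> intro i j k <;> omega
  apply Til.congr (Q := fun i j k => i + j + k = 1 ∧ 1 - d - m ≤ i ∧ d - m + 1 ≤ j ∧ 1 - m ≤ k)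
  swap
  · intro i j k; omega
  apply Til.split (fun _ j k => ((k + m - 1) % 3 = 0 ∧ j ≤ d - m + 2) ∨
    ((k + m - 1) % 3 = 1 ∧ j = d - m + 1))
  · apply Til.stone (-d) <;> intro i j k <;> omega
  · apply Til.bone1 (fun i _ _ => i + d + m - 1) <;> intro i j k <;> omega

lemma case0_outer (d m : ℤ) (hd : 0 ≤ d) (hm : 0 ≤ m) (h : Til (Rh d m)) :
    Til (Bz (d + 3 * m) (2 * d + 3 * m)) := by
  apply Til.split (fun i _ _ => d + m < i)
  · apply Til.bone2 (fun i j _ => j - i + (d + 3 * m) - 1) <;> intro i j k <;> unfold Bz <;> omega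
  apply Til.split (fun _ j _ => d + m < j)
  · apply Til.bone3 (fun _ j k => k - j + (d + 3 * m) - 1) <;> intro i j k <;> unfold Bz <;> omega
  apply Til.split (fun _ _ k => d + m < k)
  · apply Til.bone1 (fun i _ k => i - k + (d + 3 * m) - 1) <;> intro i j k <;> unfold Bz <;> omega
  apply h.congr
  intro i j k
  unfold Bz Rh
  omega

lemma case0_rec (d m : ℤ) (hd : 1 ≤ d) (hm : d - 1 ≤ m) (h : Til (Rh (d - 1) (m - d + 1))) :
    Til (Rh d m) := by
  apply Til.split (fun i j _ => m < i ∧ j - i ≤ -d)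
  · apply Til.bone2 (fun i j _ => j - i + (d + 3 * m) - 1) <;> intro i j k <;> unfold Rh <;> omega
  apply Til.split (fun _ j k => m < j ∧ k - j ≤ -d)
  · apply Til.bone3 (fun _ j k => k - j + (d + 3 * m) - 1) <;> intro i j k <;> unfold Rh <;> omega
  apply Til.split (fun i _ k => m < k ∧ i - k ≤ -d)
  · apply Til.bone1 (fun i _ k => i - k + (d + 3 * m) - 1) <;> intro i j k <;> unfold Rh <;> omega
  apply Til.split (fun i j k => i ≤ m ∧ j - i ≤ -(3 * m - 2 * d + 2) ∧ 1 - d ≤ i - k)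
  · apply Til.bone2 (fun i _ k => i - k + d - 1) <;> intro i j k <;> unfold Rh <;> omega
  apply Til.split (fun i j k => j ≤ m ∧ k - j ≤ -(3 * m - 2 * d + 2) ∧ 1 - d ≤ j - i)
  · apply Til.bone3 (fun i j _ => j - i + d - 1) <;> intro i j k <;> unfold Rh <;> omega
  apply Til.split (fun i j k => k ≤ m ∧ i - k ≤ -(3 * m - 2 * d + 2) ∧ 1 - d ≤ k - j)
  · apply Til.bone1 (fun _ j k => k - j + d - 1) <;> intro i j k <;> unfold Rh <;> omega
  apply h.congr
  intro i j k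
  unfold Rh
  omega

lemma case0_base (d r : ℤ) (hr : 0 ≤ r) (hd : r ≤ d - 1) : Til (Rh d r) := by
  apply Til.split (fun i j k => 3 * r + 1 ≤ j - i + d ∧ 1 ≤ k - j + d ∧
    (4 ≤ k - j + d ∨ 6 * r + 1 ≤ j - i + d))
  · apply Til.stone (2 - d) <;> intro i j k <;> unfold Rh <;> omega
  apply Til.split (fun _ j _ => 2 * r < j)
  · apply Til.bone3 (fun _ j k => k - j + d - 1) <;> intro i j k <;> unfold Rh <;> omega
  apply Til.split (fun i j _ => j = 2 * r ∧ 3 * r + 1 ≤ j - i + d)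
  · apply Til.bone3 (fun i j _ => j - i + d - 1) <;> intro i j k <;> unfold Rh <;> omega
  apply Til.split (fun i j _ => j < 2 * r ∧ r ≤ j ∧ 3 * r ≤ j - i + d)
  · apply Til.bone3 (fun i j _ => j - i + d) <;> intro i j k <;> unfold Rh <;> omega
  apply Til.split (fun _ _ k => r - d + 2 ≤ k)
  · apply Til.bone1 (fun i j _ => (3 * r - (j - i + d)) / 2) <;> intro i j k <;> unfold Rh <;> omega
  apply Til.split (fun i j k => 4 - r - d ≤ k ∧ j - i + d ≤ 3 * r - 1 ∧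
    3 * r - 6 * ((k - (4 - r - d)) / 2 + 1) ≤ j - i + d)
  · apply Til.bone1 (fun i j _ => (3 * r - 1 - (j - i + d)) / 2) <;> intro i j k <;> unfold Rh <;>
      omega
  · apply Til.bone2 (fun _ j k => (-3 * r - (k - j + d)) / 2) <;> intro i j k <;> unfold Rh <;>
      omega

end Pool.Agent.Work.MP_59b97c_co
end

-- merged part: Pool.Agent.Work.MP_59b97c_co.Main
section
namespace Pool.Agent.Work.MP_59b97c_co

lemma case0_Rh (n : ℕ) : ∀ m : ℤ, 0 ≤ m → 2 * m ≤ ((n : ℤ) + 1) * n → Til (Rh (n + 1) m) := by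
  induction n with
  | zero =>
    intro m h0 h1
    exact case0_base _ _ h0 (by simp at h1 ⊢; omega)
  | succ n ih =>
    intro m h0 h1
    by_cases h : m ≤ ((n + 1 : ℕ) : ℤ) + 1 - 1
    · exact case0_base _ _ h0 h
    · apply case0_rec _ _ (by omega) (by omega)
      have := ih (m - (((n + 1 : ℕ) : ℤ) + 1) + 1) (by omega) (by push_cast at h1 ⊢; nlinarith)
      convert this using 2
      push_cast
      ring

lemma main_le (a b : ℤ) (ha : 2 ≤ a) (hab : a ≤ b) (hba : b ≤ 2 * a) (hI : 0 ≤ clInvariant a b) :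
    Til (Bz a b) := by
  have h3 : (a + b) % 3 = 0 ∨ (a + b) % 3 = 1 ∨ (a + b) % 3 = 2 := by omega
  rcases h3 with h | h | h
  · obtain ⟨m, hm⟩ : ∃ m, 2 * a - b = 3 * m := ⟨(2 * a - b) / 3, by omega⟩
    obtain ⟨d, hd⟩ : ∃ d, d = b - a := ⟨_, rfl⟩
    have ea : a = d + 3 * m := by omega
    have eb : b = 2 * d + 3 * m := by omega
    unfold clInvariant at hI
    rw [if_pos h] at hI
    have hI' : (0 : ℚ) ≤ ((3 * a ^ 2 - 6 * a * b + 3 * b ^ 2 - a - b : ℤ) : ℚ) := by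
      push_cast; linarith
    have hI'' : 0 ≤ 3 * a ^ 2 - 6 * a * b + 3 * b ^ 2 - a - b := by exact_mod_cast hI'
    have hd1 : 1 ≤ d := by
      by_contra hh
      have : d = 0 := by omega
      have : b = a := by omega
      subst this
      nlinarith
    obtain ⟨n, hn⟩ : ∃ n : ℕ, d = n + 1 := ⟨(d - 1).toNat, by omega⟩
    rw [ea, eb]
    apply case0_outer d m (by omega) (by omega)
    rw [hn]
    apply case0_Rh n m (by omega)
    rw [ea, eb, hn] at hI''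
    nlinarith
  · exact case1 a b h
  · obtain ⟨m, hm⟩ : ∃ m, 2 * a - b = 3 * m + 1 := ⟨(2 * a - b) / 3, by omega⟩
    obtain ⟨d, hd⟩ : ∃ d, d = b - a := ⟨_, rfl⟩
    have ea : a = d + 3 * m + 1 := by omega
    have eb : b = 2 * d + 3 * m + 1 := by omega
    rw [ea, eb]
    exact case2 d m (by omega) (by omega)

lemma clInvariant_comm (a b : ℤ) : clInvariant a b = clInvariant b a := by
  unfold clInvariant
  rw [add_comm b a]
  split_ifs <;> ring

theorem main (a b : ℤ) (ha : 2 ≤ a) (hab : a ≤ 2 * b) (hb : 2 ≤ b) (hba : b ≤ 2 * a)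
    (hI : 0 ≤ clInvariant a b) : HasType103Tiling (benzel a b) := by
  change Til (Bz a b)
  rcases le_total a b with h | h
  · exact main_le a b ha h hba hI
  · have := (main_le b a hb h hab (by rwa [clInvariant_comm])).reflect
    apply this.congr
    intro i j k
    unfold Bz
    omega

end Pool.Agent.Work.MP_59b97c_co
end
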